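import Mathlib
import Pool.Agent.Helper93.EB.Defs
import Pool.Agent.Helper93.EB.IdD

/-!
# When is the self-map of the moduli space on periods the identity?

For the rule `(Lam, w, σ) ↦ (LamX, w, σ)` on periods, which is the period form of the assignment
`(Y, w) ↦ (X(Y), ψ⁻¹(w))` of the problem, we decide for which numerical data the induced self-map of
the period space `D_w / Γ_w` is the identity: exactly for `γ = 2`, `k = 1`, and for `γ = 2`,
`k = 2`, `n = 3` (where `k = m / r`); never for `γ = 1`.
-/

open Pool.Agent.Helper93.EB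

/-- For all numerical data of the problem the rule induces a self-map of the period space, and
each self-map induced by it is the identity if and only if `γ = 2` and either `m = r`, or `m = 2 r`
and `n = 3`. -/
theorem Pool.Agent.Results.MP_eb387e_ag.IdentityCriterion.result
    (n γ m r k₀ : ℕ) (hd : IsData n γ m r k₀) (w : V) (hw : w = wvec γ r k₀) :
    (∃ μ : PeriodSpace n w → PeriodSpace n w, IsPeriodMap n r k₀ w μ) ∧
    ∀ μ : PeriodSpace n w → PeriodSpace n w, IsPeriodMap n r k₀ w μ →
      ((∀ p, μ p = p) ↔ γ = 2 ∧ (m = r ∨ (m = 2 * r ∧ n = 3))) := by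
  subst hw
  obtain ⟨μ, hμ, _⟩ := exists_map hd
  exact ⟨⟨μ, hμ⟩, fun μ' hμ' => id_iff hd hμ'⟩
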