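import Mathlib
import Pool.Agent.Helper93.EB.Defs
import Pool.Agent.Helper93.EB.Final

/-!
# The self-map of the moduli space on periods is an involution

The problem asks whether `(Y, w) ↦ (X(Y), ψ⁻¹(w))` defines a birational automorphism of the moduli
space of polarised manifolds of K3^[n] type.  By Torelli (Verbitsky, Markman) the moduli space is
open in the period space `D_w / Γ_w`, and `H²(X, ℤ)` is the lattice `LamX` inside `H²(Y, ℚ)` with the
same class `w` and the same period vector `σ`.  The theorem below shows that this rule is
well defined on the whole period space, and that it is a homeomorphism of order one or two, induced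
by one linear isometry (any marking of `LamX`).
-/

open Pool.Agent.Helper93.EB

/-- For all numerical data of the problem: `w` is primitive, of square `2m` and divisibility `γ`;
the lattice `LamX` has a marking that fixes `w`; markings preserve the period domain; if the Picard
lattice of `(Lam, σ)` is `ℤ w` then so is that of `(LamX, σ)`; and passing from `(Lam, w, σ)` to
`(LamX, w, σ)` induces one well-defined self-map of the period space, which is continuous and an
involution (so a homeomorphism), and it is the only map induced by that rule. -/
theorem Pool.Agent.Results.MP_eb387e_ag.PeriodInvolution.result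
    (n γ m r k₀ : ℕ) (hd : IsData n γ m r k₀) (w : V) (hw : w = wvec γ r k₀) :
    IsPolarisation n γ m w ∧ (periodDomain n w).Nonempty ∧
    (∃ g, IsMarking n r k₀ w g) ∧ (∀ g, IsMarking n r k₀ w g → Normalises n w g) ∧
    (∀ σ ∈ periodDomain n w, PicardIn n w Lam σ → PicardIn n w (LamX n r k₀) σ) ∧
    ∃ μ : PeriodSpace n w → PeriodSpace n w,
      IsPeriodMap n r k₀ w μ ∧ Continuous μ ∧ (∀ p, μ (μ p) = p) ∧
      ∀ μ', IsPeriodMap n r k₀ w μ' → μ' = μ := by
  subst hw
  refine ⟨⟨wvec_mem hd, fun t x hx h => wvec_primitive hd t x hx h, wvec_sq hd, wvec_div,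
    wvec_div'⟩, domain_nonempty, ?_, fun g hg => normalises hd hg, fun σ _ h => picard hd σ h,
    exists_map hd⟩
  obtain ⟨hn, hγ, hr, ⟨u, v, huv⟩, _⟩ := data_facts hd
  have hr0 : (r : ℂ) ≠ 0 := by
    have : r ≠ 0 := by omega
    exact_mod_cast this
  have huv' : (r : ℂ) * u + (k₀ : ℂ) * v = 1 := by exact_mod_cast huv
  exact ⟨GG r k₀ u v hr0 huv', marking_ofE GG_marking⟩
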